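import Mathlib
import Pool.Agent.H618.GZ.GapTwo

/-!
# Zeros of `a n = |a (n - 1) - gcd (a (n - 1), V n)|` for a slowly increasing `V`
-/

set_option autoImplicit false

namespace Pool.Agent.H618.GV

open Filter Topology Pool.Agent.H618.GZ

/-- what is needed of the second argument of the gcd -/
structure Slow (V : ℕ → ℤ) (C n₁ : ℕ) : Prop where
  C1 : 1 ≤ C
  mono : ∀ k m, n₁ ≤ k → k < m → V k < V m
  pos : ∀ k, n₁ ≤ k → 0 < V k
  inc : ∀ s J : ℕ, n₁ ≤ s → J ≤ s → (V (s + J) - V s) * s ≤ C * J * V s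

/-- the descent between two zeros -/
lemma dsc {V : ℕ → ℤ} {C n₁ : ℕ} (hV : Slow V C n₁) (a : ℕ → ℤ)
    (ha : ∀ n : ℕ, 2 ≤ n → a n = |a (n - 1) - ((Int.gcd (a (n - 1)) (V n) : ℕ) : ℤ)|)
    (n n' : ℕ) (hn : 1 ≤ n) (hn1 : n₁ ≤ n) (hnn : n < n') (h0 : a n = 0) (h0' : a n' = 0)
    (hne : ∀ k : ℕ, n < k → k < n' → a k ≠ 0) (J : ℕ) (hJ : n' = n + 1 + J)
    (hJn : 16 * C * J ≤ n + 1) :
    Dsc (n + 1) n' J V a (fun k => ((Int.gcd (a (k - 1)) (V k) : ℕ) : ℤ)) (V (n + 1))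
      (V n' - V (n + 1)) := by
  have hC1 := hV.C1
  have hX := hV.pos (n + 1) (by omega)
  have hone : a (n + 1) = V (n + 1) := by
    rw [ha (n + 1) (by omega), Nat.add_sub_cancel, h0, Int.gcd_zero_left, zero_sub, abs_neg]
    rw [Int.natCast_natAbs, abs_abs, abs_of_nonneg hX.le]
  have hJ1 : 1 ≤ J := by
    by_contra hcon
    have : n' = n + 1 := by omega
    rw [this, hone] at h0'
    linarith
  have hnn0 : ∀ k, n + 1 ≤ k → k ≤ n' → 0 ≤ a k := by
    intro k hk _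
    rw [ha k (by omega)]
    exact abs_nonneg _
  have hpos : ∀ k, n + 1 < k → k ≤ n' → 0 < a (k - 1) := by
    intro k hk hk'
    exact lt_of_le_of_ne (hnn0 (k - 1) (by omega) (by omega))
      (Ne.symm (hne (k - 1) (by omega) (by omega)))
  have hJs : J ≤ n + 1 := by nlinarith
  have hinc := hV.inc (n + 1) J (by omega) hJs
  refine ⟨hone, ?_, ?_, ?_, ?_, h0', hJ, hJ1, hnn0, rfl, ?_, hX, ?_⟩
  · intro k hk hk'
    have h1 := hpos k hk hk'
    rw [ha k (by omega), abs_of_nonneg]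
    have := Int.le_of_dvd h1 (Int.gcd_dvd_left (a := a (k - 1)) (b := V k))
    linarith
  · intro k hk hk'
    have h1 := (hpos k hk hk').ne'
    have := Int.gcd_pos_of_ne_zero_left (V k) h1
    exact_mod_cast this
  · intro k _ _
    exact Int.gcd_dvd_left _ _
  · intro k _ _
    exact Int.gcd_dvd_right _ _
  · intro k m hk hkm hm
    have h1 := hV.mono k m (by omega) hkm
    have h2 : V m ≤ V n' := by
      rcases Nat.eq_or_lt_of_le hm with h | h
      · rw [h]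
      · exact (hV.mono m n' (by omega) h).le
    have h3 : V (n + 1) ≤ V k := by
      rcases Nat.eq_or_lt_of_le hk with h | h
      · rw [h]
      · exact (hV.mono (n + 1) k (by omega) h).le
    exact ⟨h1, by linarith⟩
  · have hc : (16 : ℤ) * C * J ≤ ((n + 1 : ℕ) : ℤ) := by exact_mod_cast hJn
    rw [hJ]
    have hs0 : (0 : ℤ) < ((n + 1 : ℕ) : ℤ) := by positivity
    have h1 : (16 * (V (n + 1 + J) - V (n + 1))) * ((n + 1 : ℕ) : ℤ) ≤
        V (n + 1) * ((n + 1 : ℕ) : ℤ) := by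
      have h2 : (16 : ℤ) * C * J * V (n + 1) ≤ ((n + 1 : ℕ) : ℤ) * V (n + 1) :=
        mul_le_mul_of_nonneg_right hc hX.le
      linarith
    exact le_of_mul_le_mul_right h1 hs0

/-- the distance between consecutive zeros -/
theorem gap {V : ℕ → ℤ} {C n₁ : ℕ} (hV : Slow V C n₁) :
    ∃ n₀ : ℕ, ∀ a : ℕ → ℤ,
      (∀ n : ℕ, 2 ≤ n → a n = |a (n - 1) - ((Int.gcd (a (n - 1)) (V n) : ℕ) : ℤ)|) →
      ∀ n n' : ℕ, n₀ ≤ n → n < n' → a n = 0 → a n' = 0 →
        (∀ k : ℕ, n < k → k < n' → a k ≠ 0) →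
        (Real.log n) ^ 2 / 72000 ≤ (n' : ℝ) - n := by
  have hC1 := hV.C1
  have hC0 : (0 : ℝ) < C := by exact_mod_cast hC1
  obtain ⟨N₁, hN₁⟩ := eventually_atTop.1 (large2 C)
  refine ⟨max (max N₁ 3) n₁, fun a ha n n' hN hnn h0 h0' hne => ?_⟩
  have hN3 : 3 ≤ n := (le_max_right _ _).trans ((le_max_left _ _).trans hN)
  have hNn : n₁ ≤ n := (le_max_right _ _).trans hN
  obtain ⟨h2, h3, h4⟩ := hN₁ n ((le_max_left _ _).trans ((le_max_left _ _).trans hN))
  obtain ⟨J, hJ⟩ : ∃ J, n' = n + 1 + J := Nat.exists_eq_add_of_le hnn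
  set L : ℝ := Real.log n with hL
  have hL0 : 0 < L := by linarith
  have hn0 : (0 : ℝ) < n := by exact_mod_cast (by omega : 0 < n)
  by_contra hcon
  push Not at hcon
  have hn'r : (n' : ℝ) = n + 1 + J := by exact_mod_cast hJ
  have hJcon : (J : ℝ) + 1 < L ^ 2 / 72000 := by
    rw [hn'r] at hcon
    linarith
  have hJL : (J : ℝ) ≤ L ^ 2 := by
    have e3 : 0 ≤ L ^ 2 := by positivity
    linarith
  have hJ0 : (0 : ℝ) ≤ J := by positivity
  have hJn : 16 * C * J ≤ n + 1 := by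
    have : 16 * (C : ℝ) * (J : ℝ) ≤ (n : ℝ) + 1 := by
      have e1 : 32 * (C : ℝ) * (J : ℝ) ≤ 32 * C * L ^ 2 :=
        mul_le_mul_of_nonneg_left hJL (by positivity)
      have e2 : 0 ≤ (C : ℝ) * J := by positivity
      linarith
    exact_mod_cast this
  have hd := dsc hV a ha n n' (by omega) hNn hnn h0 h0' hne J hJ hJn
  set K : ℕ := ⌊L / 10⌋₊ with hK
  have hK1 : L / 10 < K + 1 := Nat.lt_floor_add_one _
  have hK2 : (K : ℝ) ≤ L / 10 := Nat.floor_le (by positivity)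
  have hKlow : L / 20 ≤ (K : ℝ) := by linarith
  have hJ1 := hd.hJ1
  have hpowR : C * (J : ℝ) * 4096 ^ K ≤ (n : ℝ) := by
    have hlogb : Real.log 4096 ≤ 9 := by
      have : (4096 : ℝ) = 2 ^ 12 := by norm_num
      rw [this, Real.log_pow]
      have := Real.log_two_lt_d9
      push_cast
      linarith
    have hlogK : (K : ℝ) * Real.log 4096 ≤ 9 / 10 * L := by
      have hb1 : 0 ≤ Real.log 4096 := Real.log_nonneg (by norm_num)
      calc (K : ℝ) * Real.log 4096 ≤ L / 10 * 9 :=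
            mul_le_mul hK2 hlogb hb1 (by positivity)
        _ = 9 / 10 * L := by ring
    have hreal : (4096 : ℝ) ^ K ≤ Real.exp (9 / 10 * L) := by
      rw [← Real.log_le_iff_le_exp (by positivity), Real.log_pow]
      exact hlogK
    have hexp : Real.exp (L / 10) * Real.exp (9 / 10 * L) = n := by
      rw [← Real.exp_add]
      have : L / 10 + 9 / 10 * L = L := by ring
      rw [this, hL, Real.exp_log hn0]
    have h5 : C * (J : ℝ) ≤ Real.exp (L / 10) :=
      (mul_le_mul_of_nonneg_left hJL hC0.le).trans h3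
    calc C * (J : ℝ) * 4096 ^ K ≤ Real.exp (L / 10) * Real.exp (9 / 10 * L) :=
          mul_le_mul h5 hreal (by positivity) (by positivity)
      _ = n := hexp
  have hpowZ : (C : ℤ) * (J : ℤ) * 4096 ^ K ≤ 8 * 4096 ^ 2 * ((n + 1 : ℕ) : ℤ) := by
    have : (C : ℝ) * (J : ℝ) * 4096 ^ K ≤ 8 * 4096 ^ 2 * ((n + 1 : ℕ) : ℝ) := by
      push_cast
      linarith
    exact_mod_cast this
  have hJs : J ≤ n + 1 := by nlinarith
  have hinc := hV.inc (n + 1) J (by omega) hJs
  have hX := hV.pos (n + 1) (by omega)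
  have hfin := hd.finite2 K (by
    rw [hJ]
    set s : ℤ := ((n + 1 : ℕ) : ℤ) with hs
    have hs0 : (0 : ℤ) < s := by rw [hs]; positivity
    set B : ℤ := (4096 : ℤ) ^ K with hB
    have hB0 : 0 ≤ B := by positivity
    have e1 : (V (n + 1 + J) - V (n + 1)) * s * B ≤ C * J * V (n + 1) * B :=
      mul_le_mul_of_nonneg_right hinc hB0
    have e2 : (C : ℤ) * J * V (n + 1) * B = V (n + 1) * (C * J * B) := by ring
    have e3 : V (n + 1) * (C * J * B) ≤ V (n + 1) * (8 * 4096 ^ 2 * s) :=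
      mul_le_mul_of_nonneg_left hpowZ hX.le
    have e7 : ((V (n + 1 + J) - V (n + 1)) * B) * s ≤ (8 * 4096 ^ 2 * V (n + 1)) * s := by
      calc ((V (n + 1 + J) - V (n + 1)) * B) * s = (V (n + 1 + J) - V (n + 1)) * s * B := by ring
        _ ≤ _ := e1
        _ = _ := e2
        _ ≤ _ := e3
        _ = _ := by ring
    exact le_of_mul_le_mul_right e7 hs0)
  have hfinR : (K : ℝ) ^ 2 ≤ 180 * (J : ℝ) := by exact_mod_cast hfin
  have hsq : (L / 20) ^ 2 ≤ (K : ℝ) ^ 2 := pow_le_pow_left₀ (by positivity) hKlow 2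
  have e : (L / 20) ^ 2 = L ^ 2 / 400 := by ring
  rw [e] at hsq
  linarith

/-- the number of zeros -/
theorem count_of (a : ℕ → ℤ) (n₀ : ℕ)
    (hn₀ : ∀ n n' : ℕ, n₀ ≤ n → n < n' → a n = 0 → a n' = 0 →
        (Real.log n) ^ 2 / 72000 ≤ (n' : ℝ) - n) (x : ℕ) (hx : 2 ≤ x) :
    (((Finset.Icc 1 x).filter (fun n => a n = 0)).card : ℝ) ≤
      (16 * (n₀ + 2) + 288000) * x / (Real.log x) ^ 2 := by
  classical
  have hxr : (2 : ℝ) ≤ x := by exact_mod_cast hx
  have hlog0 : 0 < Real.log x := Real.log_pos (by linarith)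
  set y : ℕ := n₀ + Nat.sqrt x with hy
  set A : Finset ℕ := (Finset.Ioc y x).filter (fun n => a n = 0) with hA
  have hsub : (Finset.Icc 1 x).filter (fun n => a n = 0) ⊆ Finset.Icc 1 y ∪ A := by
    intro n hn
    rw [Finset.mem_filter, Finset.mem_Icc] at hn
    rw [Finset.mem_union, Finset.mem_Icc, hA, Finset.mem_filter, Finset.mem_Ioc]
    rcases Nat.lt_or_ge y n with h | h
    · exact Or.inr ⟨⟨h, hn.1.2⟩, hn.2⟩
    · exact Or.inl ⟨hn.1.1, h⟩
  have hcard : ((Finset.Icc 1 x).filter (fun n => a n = 0)).card ≤ y + A.card := by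
    refine (Finset.card_le_card hsub).trans ((Finset.card_union_le _ _).trans ?_)
    rw [Nat.card_Icc, Nat.add_sub_cancel]
  set G : ℝ := (Real.log x) ^ 2 / 288000 with hG
  have hG0 : 0 < G := by positivity
  set g : ℕ := ⌈G⌉₊ with hg
  have hgG : G ≤ g := Nat.le_ceil _
  have hg1 : 1 ≤ g := Nat.one_le_iff_ne_zero.mpr (by
    intro h
    rw [h] at hgG
    simp at hgG
    linarith)
  have hAc : ((A.card : ℝ) - 1) * G ≤ x := by
    rcases A.eq_empty_or_nonempty with h | h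
    · rw [h, Finset.card_empty]
      have : (0 : ℝ) ≤ x := by positivity
      push_cast
      linarith
    · have h1 := spread A h g hg1 (by
        intro i hi j hj hij
        rw [hA, Finset.mem_filter, Finset.mem_Ioc] at hi hj
        have h2 := hn₀ i j (by omega) hij hi.2 hj.2
        have h3 : Real.log x ≤ 2 * Real.log i := by
          have e1 : x ≤ i ^ 2 := by
            have e2 : Nat.sqrt x + 1 ≤ i := by omega
            have e3 := Nat.lt_succ_sqrt' x
            calc x ≤ (Nat.sqrt x + 1) ^ 2 := e3.le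
              _ ≤ i ^ 2 := Nat.pow_le_pow_left e2 2
          have e2 : (x : ℝ) ≤ (i : ℝ) ^ 2 := by exact_mod_cast e1
          have e3 := Real.log_le_log (by linarith) e2
          rw [Real.log_pow] at e3
          exact_mod_cast e3
        have h4 : (Real.log x) ^ 2 ≤ (2 * Real.log i) ^ 2 :=
          pow_le_pow_left₀ hlog0.le h3 2
        have h5 : G ≤ ((j - i : ℕ) : ℝ) := by
          rw [Nat.cast_sub hij.le, hG]
          have e : (2 * Real.log i) ^ 2 = 4 * (Real.log i) ^ 2 := by ring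
          rw [e] at h4
          linarith
        exact Nat.ceil_le.mpr h5)
      have h6 : (A.card - 1) * g ≤ x := by
        have hmem : ∀ z ∈ A, z ≤ x := by
          intro z hz
          rw [hA, Finset.mem_filter, Finset.mem_Ioc] at hz
          exact hz.1.2
        have h7 : A.max' h ≤ x := hmem _ (A.max'_mem h)
        omega
      have hc1 : 1 ≤ A.card := Finset.card_pos.mpr h
      have h8 : ((A.card : ℝ) - 1) * g ≤ x := by
        have : (((A.card - 1) * g : ℕ) : ℝ) ≤ x := by exact_mod_cast h6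
        rw [Nat.cast_mul, Nat.cast_sub hc1, Nat.cast_one] at this
        exact this
      have h9 : (0 : ℝ) ≤ (A.card : ℝ) - 1 := by
        have : (1 : ℝ) ≤ A.card := by exact_mod_cast hc1
        linarith
      exact (mul_le_mul_of_nonneg_left hgG h9).trans h8
  have hsqrt : (Real.log x) ^ 2 ≤ 16 * Real.sqrt x := by
    have h1 := Real.log_le_rpow_div (x := x) (ε := 1 / 4) (by linarith) (by norm_num)
    have h2 : Real.log x ≤ 4 * (x : ℝ) ^ (1 / 4 : ℝ) := by linarith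
    have h3 : (Real.log x) ^ 2 ≤ (4 * (x : ℝ) ^ (1 / 4 : ℝ)) ^ 2 :=
      pow_le_pow_left₀ hlog0.le h2 2
    have h4 : (4 * (x : ℝ) ^ (1 / 4 : ℝ)) ^ 2 = 16 * Real.sqrt x := by
      rw [mul_pow, ← Real.rpow_natCast ((x : ℝ) ^ (1 / 4 : ℝ)) 2, ← Real.rpow_mul (by linarith),
        Real.sqrt_eq_rpow]
      norm_num
    rwa [h4] at h3
  have hs1 : (1 : ℝ) ≤ Real.sqrt x := Real.one_le_sqrt.mpr (by linarith)
  have hss : Real.sqrt x * Real.sqrt x = x := Real.mul_self_sqrt (by linarith)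
  have hns : ((Nat.sqrt x : ℕ) : ℝ) ≤ Real.sqrt x := Real.nat_sqrt_le_real_sqrt
  rw [le_div_iff₀ (by positivity)]
  have hcardr : (((Finset.Icc 1 x).filter (fun n => a n = 0)).card : ℝ) ≤
      n₀ + Real.sqrt x + A.card := by
    have : (((Finset.Icc 1 x).filter (fun n => a n = 0)).card : ℝ) ≤ ((y + A.card : ℕ) : ℝ) := by
      exact_mod_cast hcard
    rw [hy] at this
    push_cast at this
    linarith
  have hL2 : 0 < (Real.log x) ^ 2 := by positivity
  have e1 : (n₀ + Real.sqrt x + 1) * (Real.log x) ^ 2 ≤ (n₀ + 2) * 16 * x := by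
    have e2 : n₀ + Real.sqrt x + 1 ≤ (n₀ + 2) * Real.sqrt x := by
      have : (0 : ℝ) ≤ n₀ := by positivity
      nlinarith
    calc (n₀ + Real.sqrt x + 1) * (Real.log x) ^ 2 ≤
          ((n₀ + 2) * Real.sqrt x) * (16 * Real.sqrt x) :=
          mul_le_mul e2 hsqrt hL2.le (by positivity)
      _ = (n₀ + 2) * 16 * (Real.sqrt x * Real.sqrt x) := by ring
      _ = _ := by rw [hss]
  have e3 : ((A.card : ℝ) - 1) * (Real.log x) ^ 2 ≤ 288000 * x := by
    have e4 : (Real.log x) ^ 2 = 288000 * G := by rw [hG]; ring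
    rw [e4]
    linarith
  calc (((Finset.Icc 1 x).filter (fun n => a n = 0)).card : ℝ) * (Real.log x) ^ 2 ≤
        (n₀ + Real.sqrt x + A.card) * (Real.log x) ^ 2 :=
        mul_le_mul_of_nonneg_right hcardr hL2.le
    _ = (n₀ + Real.sqrt x + 1) * (Real.log x) ^ 2 + ((A.card : ℝ) - 1) * (Real.log x) ^ 2 := by
        ring
    _ ≤ (n₀ + 2) * 16 * x + 288000 * x := add_le_add e1 e3
    _ = _ := by ring

/-- both statements -/
theorem main {V : ℕ → ℤ} {C n₁ : ℕ} (hV : Slow V C n₁) :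
    ∃ n₀ : ℕ, ∃ C : ℝ, ∀ a : ℕ → ℤ,
      (∀ n : ℕ, 2 ≤ n → a n = |a (n - 1) - ((Int.gcd (a (n - 1)) (V n) : ℕ) : ℤ)|) →
      (∀ n n' : ℕ, n₀ ≤ n → n < n' → a n = 0 → a n' = 0 →
        (Real.log n) ^ 2 / 72000 ≤ (n' : ℝ) - n) ∧
      (∀ x : ℕ, 2 ≤ x →
        (((Finset.Icc 1 x).filter (fun n => a n = 0)).card : ℝ) ≤
          C * x / (Real.log x) ^ 2) := by
  classical
  obtain ⟨n₀, hn₀⟩ := gap hV
  refine ⟨n₀, 16 * (n₀ + 2) + 288000, fun a ha => ?_⟩
  have h : ∀ n n' : ℕ, n₀ ≤ n → n < n' → a n = 0 → a n' = 0 →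
      (Real.log n) ^ 2 / 72000 ≤ (n' : ℝ) - n := by
    intro n n' hn hnn h0 h0'
    have hex : ∃ k, n < k ∧ a k = 0 := ⟨n', hnn, h0'⟩
    obtain ⟨h1, h2⟩ := Nat.find_spec hex
    have h3 : Nat.find hex ≤ n' := Nat.find_min' hex ⟨hnn, h0'⟩
    have h4 := hn₀ a ha n (Nat.find hex) hn h1 h0 h2 (fun k hk1 hk2 hk3 =>
      Nat.find_min hex hk2 ⟨hk1, hk3⟩)
    have h5 : ((Nat.find hex : ℕ) : ℝ) ≤ n' := by exact_mod_cast h3
    linarith
  exact ⟨h, count_of a n₀ h⟩

end Pool.Agent.H618.GV
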